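import Mathlib

/-!
# Regular Diophantine triples never give torsion Z/2 x Z/6 over a quadratic field

Let `{a, b, c}` be a regular Diophantine triple in integers.  The curve
`y ^ 2 = (a x + 1) (b x + 1) (c x + 1)` becomes, after `X = a b c x`, `Y = a b c y`, the
Weierstrass curve `Y ^ 2 = (X + a b) (X + b c) (X + c a)`.  Its 3-division polynomial is
`3 X ^ 4 + 4 e X ^ 3 + 6 P (a + b + c) X ^ 2 + 12 P ^ 2 X + P ^ 2 (4 e - (a + b + c) ^ 2)` with
`e = a b + b c + c a` and `P = a b c`; regularity says exactly that the constant term is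
`- 4 P ^ 2`.  We show that it has no rational root.  A positive root is smaller than `1 / 3`,
while three times a rational root is an integer.  A negative root `- s` satisfies `s > b c`
(for `0 < a < b < c`), while a `p`-adic argument gives `s ^ 3 ≤ 2 P ^ 2`, and these contradict
`c > 4 a`.  A point of order three over a quadratic field would give a rational root by
Galois conjugation.
-/

open WeierstrassCurve

namespace Pool.Agent.Results.MP_618be3_nt.NoTorsionTwoSix

/-- `{a, b, c}` is a Diophantine triple in integers: three distinct nonzero integers such that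
`a b + 1`, `a c + 1` and `b c + 1` are squares of integers. -/
def IsDiophantineTriple (a b c : ℤ) : Prop :=
  (a ≠ b ∧ a ≠ c ∧ b ≠ c) ∧ (a ≠ 0 ∧ b ≠ 0 ∧ c ≠ 0) ∧
    IsSquare (a * b + 1) ∧ IsSquare (a * c + 1) ∧ IsSquare (b * c + 1)

/-- The triple `{a, b, c}` is regular: `(c - a - b) ^ 2 = 4 (a b + 1)`. -/
def IsRegular (a b c : ℤ) : Prop :=
  (c - a - b) ^ 2 = 4 * (a * b + 1)

/-- Sanity check: `{1, 3, 8}` is a regular Diophantine triple. -/
lemma exists_regular_triple : IsDiophantineTriple 1 3 8 ∧ IsRegular 1 3 8 :=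
  ⟨⟨⟨by decide, by decide, by decide⟩, ⟨by decide, by decide, by decide⟩,
    ⟨2, by norm_num⟩, ⟨3, by norm_num⟩, ⟨5, by norm_num⟩⟩, by norm_num [IsRegular]⟩

/-- The elliptic curve over `ℚ` induced by `{a, b, c}`, that is
`y ^ 2 = (a x + 1) (b x + 1) (c x + 1)`, in its Weierstrass form
`Y ^ 2 = (X + a b) (X + b c) (X + c a)` obtained by the substitution
`X = a b c x`, `Y = a b c y` (see `inducedCurve_equation_iff`). -/
def inducedCurve (a b c : ℤ) : WeierstrassCurve ℚ where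
  a₁ := 0
  a₂ := (a : ℚ) * b + b * c + c * a
  a₃ := 0
  a₄ := (a : ℚ) * b * c * (a + b + c)
  a₆ := ((a : ℚ) * b * c) ^ 2

/-- The Weierstrass model is the induced curve: `(x, y)` satisfies
`y ^ 2 = (a x + 1) (b x + 1) (c x + 1)` iff `(a b c x, a b c y)` is on the Weierstrass model. -/
lemma inducedCurve_equation_iff (a b c : ℤ) (ha : a ≠ 0) (hb : b ≠ 0) (hc : c ≠ 0)
    {K : Type*} [Field K] [NumberField K] (x y : K) :
    ((inducedCurve a b c).baseChange K).toAffine.Equation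
      ((a : K) * b * c * x) ((a : K) * b * c * y) ↔
    y ^ 2 = ((a : K) * x + 1) * ((b : K) * x + 1) * ((c : K) * x + 1) := by
  have ha' : (a : K) ≠ 0 := by exact_mod_cast ha
  have hb' : (b : K) ≠ 0 := by exact_mod_cast hb
  have hc' : (c : K) ≠ 0 := by exact_mod_cast hc
  have h0 : ((a : K) * b * c) ^ 2 ≠ 0 := by positivity
  rw [Affine.equation_iff]
  simp only [inducedCurve, baseChange, map_a₁, map_a₂, map_a₃, map_a₄, map_a₆, map_zero,
    map_add, map_mul, map_pow, map_intCast]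
  constructor
  · intro h
    apply mul_left_cancel₀ h0
    linear_combination h
  · intro h
    linear_combination ((a : K) * b * c) ^ 2 * h

/-- The Weierstrass model is the cubic with roots `- a b`, `- b c`, `- c a`. -/
lemma inducedCurve_equation_iff' (a b c : ℤ) {K : Type*} [Field K] [NumberField K] (X Y : K) :
    ((inducedCurve a b c).baseChange K).toAffine.Equation X Y ↔
    Y ^ 2 = (X + (a : K) * b) * (X + (b : K) * c) * (X + (c : K) * a) := by
  rw [Affine.equation_iff]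
  simp only [inducedCurve, baseChange, map_a₁, map_a₂, map_a₃, map_a₄, map_a₆, map_zero,
    map_add, map_mul, map_pow, map_intCast]
  constructor
  · intro h
    linear_combination h
  · intro h
    linear_combination h

/-- p-adic part -/
lemma cube_dvd (n P q e τ : ℤ) (hn : 0 < n) (hP : 0 < P) (hcop : IsCoprime n q)
    (h : 3*n^4 - 4*e*n^3*q + 12*P*τ*n^2*q^2 - 12*P^2*n*q^3 - 4*P^2*q^4 = 0) :
    n^3 ∣ 2*P^2 := by
  have key : ∀ p k : ℕ, p.Prime → (p:ℤ)^k ∣ n^3 → (p:ℤ)^k ∣ 2*P^2 := by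
    intro p k hp hk
    have hpZ : Prime (p:ℤ) := Nat.prime_iff_prime_int.mp hp
    obtain ⟨x, n1, hn1, hnx⟩ := WfDvdMonoid.max_power_factor (a₀ := n) (x := (p:ℤ)) hn.ne' hpZ.irreducible
    obtain ⟨A, P1, hP1, hPA⟩ := WfDvdMonoid.max_power_factor (a₀ := P) (x := (p:ℤ)) hP.ne' hpZ.irreducible
    have hn13 : ¬ (p:ℤ) ∣ n1^3 := fun hh => hn1 (hpZ.dvd_of_dvd_pow hh)
    have hk3 : k ≤ 3*x := by
      by_contra hlt
      push Not at hlt
      have h1 : (p:ℤ)^(3*x+1) ∣ n^3 := (pow_dvd_pow _ hlt).trans hk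
      rw [hnx, mul_pow, ← pow_mul, pow_succ, mul_comm x 3] at h1
      exact hn13 ((mul_dvd_mul_iff_left (pow_ne_zero _ hpZ.ne_zero)).mp h1)
    refine (pow_dvd_pow _ hk3).trans ?_
    by_cases hA : 3*x ≤ 2*A
    · refine (pow_dvd_pow _ hA).trans ?_
      rw [hPA]
      exact ⟨2*P1^2, by ring⟩
    push Not at hA
    have hx1 : 1 ≤ x := by omega
    have hpn : (p:ℤ) ∣ n := by
      rw [hnx]; exact Dvd.dvd.mul_right (dvd_pow_self _ (by omega)) _
    have hpq : ¬ (p:ℤ) ∣ q := fun hh => hpZ.not_isUnit (hcop.isUnit_of_dvd' hpn hh)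
    have hpq4 : ¬ (p:ℤ) ∣ q^4 := fun hh => hpq (hpZ.dvd_of_dvd_pow hh)
    have hP12 : ¬ (p:ℤ) ∣ P1^2 := fun hh => hP1 (hpZ.dvd_of_dvd_pow hh)
    have hpp : ∀ j : ℕ, (p:ℤ)^j ≠ 0 := fun j => pow_ne_zero _ hpZ.ne_zero
    -- common divisibilities
    have d1 : (p:ℤ)^(2*A+1) ∣ n^3 := by
      rw [hnx]
      refine (pow_dvd_pow _ (show 2*A+1 ≤ 3*x by omega)).trans ⟨n1^3, by ring⟩
    have d2 : (p:ℤ)^(2*A+1) ∣ P*n^2 := by
      rw [hnx, hPA]
      refine (pow_dvd_pow _ (show 2*A+1 ≤ A+2*x by omega)).trans ⟨P1*n1^2, by ring⟩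
    have d3 : (p:ℤ)^(2*A+1) ∣ P^2*n := by
      rw [hnx, hPA]
      refine (pow_dvd_pow _ (show 2*A+1 ≤ 2*A+x by omega)).trans ⟨P1^2*n1, by ring⟩
    obtain ⟨c1, hc1⟩ := d1
    obtain ⟨c2, hc2⟩ := d2
    obtain ⟨c3, hc3⟩ := d3
    by_cases hp2 : p = 2
    · subst hp2
      by_cases hA1 : 3*x ≤ 2*A+1
      · refine (pow_dvd_pow _ hA1).trans ?_
        rw [hPA]
        exact ⟨P1^2, by push_cast; ring⟩
      · push Not at hA1
        exfalso
        have d4 : ((2:ℕ):ℤ)^(2*A+3) ∣ n^4 := by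
          rw [hnx]
          refine (pow_dvd_pow _ (show 2*A+3 ≤ 4*x by omega)).trans ⟨n1^4, by ring⟩
        obtain ⟨c4, hc4⟩ := d4
        have h5 : ((2:ℕ):ℤ)^(2*A+3) ∣ 4*P^2*q^4 := by
          refine ⟨3*c4 - e*q*c1 + 3*τ*q^2*c2 - 3*q^3*c3, ?_⟩
          have e4 : ((2:ℕ):ℤ)^(2*A+3) = 4 * ((2:ℕ):ℤ)^(2*A+1) := by push_cast; ring
          have e5 : n^4 = 4 * ((2:ℕ):ℤ)^(2*A+1) * c4 := by rw [hc4, e4]
          rw [e4]
          linear_combination (-1 : ℤ) * h + 3 * e5 - 4*e*q*hc1 + 12*τ*q^2*hc2 - 12*q^3*hc3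
        have h6 : 4*P^2*q^4 = ((2:ℕ):ℤ)^(2*A+2) * (P1^2*q^4) := by
          rw [hPA]; push_cast; ring
        rw [h6, pow_succ] at h5
        have h7 := (mul_dvd_mul_iff_left (hpp (2*A+2))).mp h5
        rcases hpZ.dvd_or_dvd h7 with h8 | h8
        · exact hP12 h8
        · exact hpq4 h8
    · exfalso
      have d4 : (p:ℤ)^(2*A+1) ∣ n^4 := by
        rw [hnx]
        refine (pow_dvd_pow _ (show 2*A+1 ≤ 4*x by omega)).trans ⟨n1^4, by ring⟩
      obtain ⟨c4, hc4⟩ := d4
      have h5 : (p:ℤ)^(2*A+1) ∣ 4*P^2*q^4 := by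
        refine ⟨3*c4 - 4*e*q*c1 + 12*τ*q^2*c2 - 12*q^3*c3, ?_⟩
        linear_combination (-1 : ℤ) * h + 3 * hc4 - 4*e*q*hc1 + 12*τ*q^2*hc2 - 12*q^3*hc3
      have h6 : 4*P^2*q^4 = (p:ℤ)^(2*A) * (4*(P1^2*q^4)) := by
        rw [hPA]; ring
      rw [h6, pow_succ] at h5
      have h7 := (mul_dvd_mul_iff_left (hpp (2*A))).mp h5
      have hp4 : ¬ (p:ℤ) ∣ 4 := by
        intro hh
        have h9 : p ∣ 2^2 := by exact_mod_cast hh
        have := (Nat.prime_dvd_prime_iff_eq hp Nat.prime_two).mp (hp.dvd_of_dvd_pow h9)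
        exact hp2 this
      rcases hpZ.dvd_or_dvd h7 with h8 | h8
      · exact hp4 h8
      rcases hpZ.dvd_or_dvd h8 with h8 | h8
      · exact hP12 h8
      · exact hpq4 h8
  -- conclude
  have h0 : (n^3).natAbs ∣ (2*P^2).natAbs := by
    rw [Nat.dvd_iff_prime_pow_dvd_dvd]
    intro p k hp hk
    have := key p k hp (by
      rw [← Int.natAbs_dvd_natAbs, Int.natAbs_pow (p:ℤ) k, Int.natAbs_natCast]; exact hk)
    rw [← Int.natAbs_dvd_natAbs, Int.natAbs_pow (p:ℤ) k, Int.natAbs_natCast] at this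
    exact this
  exact Int.natAbs_dvd_natAbs.mp h0

/-- the quartic is negative on [-bc, 0] -/
lemma psi_neg (a b c s : ℚ) (ha : 0 < a) (hab : a < b) (hc : a + b ≤ c)
    (hs : 0 < s) (hsb : s ≤ b*c) 
    (hreg : a^2+b^2+c^2-2*a*b-2*b*c-2*a*c = 4) :
    3*s^4 - 4*(a*b+b*c+c*a)*s^3 + 6*(a*b*c*(a+b+c))*s^2 - 12*(a*b*c)^2*s - 4*(a*b*c)^2 < 0 := by
  have hb : 0 < b := ha.trans hab
  have hc0 : 0 < c := by linarith
  have hab0 : 0 < a*b := mul_pos ha hb
  have hbc0 : 0 < b*c := mul_pos hb hc0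
  have hca0 : 0 < c*a := mul_pos hc0 ha
  have hcab : c*a < b*c := by nlinarith
  have habc : 0 < a*b*c := mul_pos hab0 hc0
  rcases le_or_gt s (a*b) with h1 | h1
  · have t1 : 3*s^4 ≤ 4*(a*b+b*c+c*a)*s^3 := by
      have : 3*s ≤ 4*(a*b+b*c+c*a) := by linarith
      have := mul_le_mul_of_nonneg_right this (pow_pos hs 3).le
      nlinarith
    have t2 : 6*(a*b*c*(a+b+c))*s^2 ≤ 12*(a*b*c)^2*s := by
      have h3 : (a+b+c)*s ≤ 2*c*(a*b) := by
        calc (a+b+c)*s ≤ (2*c)*s := by apply mul_le_mul_of_nonneg_right _ hs.le; linarith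
          _ ≤ 2*c*(a*b) := by apply mul_le_mul_of_nonneg_left h1; positivity
      have := mul_le_mul_of_nonneg_left h3 (show 0 ≤ 6*(a*b*c)*s by positivity)
      nlinarith
    have t3 : 0 < 4*(a*b*c)^2 := by positivity
    linarith
  · -- p = ab - s < 0, t = ca - s, q = bc - s ≥ 0
    set p := a*b - s with hp
    set t := c*a - s with ht
    set q := b*c - s with hq
    have hp0 : p < 0 := by rw [hp]; linarith
    have hq0 : 0 ≤ q := by rw [hq]; linarith
    have htq : t < q := by rw [ht, hq]; linarith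
    have key : 3*s^4 - 4*(a*b+b*c+c*a)*s^3 + 6*(a*b*c*(a+b+c))*s^2 - 12*(a*b*c)^2*s - 4*(a*b*c)^2
        = -((p*t - p*q)^2 + (t*q)^2 - 2*(t*q)*(p*t+p*q)) := by
      rw [hp, ht, hq]
      linear_combination ((a*b*c)^2) * hreg
    rw [key]
    have hpq : p*q ≤ 0 := mul_nonpos_of_nonpos_of_nonneg hp0.le hq0
    rcases le_or_gt 0 t with h2 | h2
    · have e1 : 0 ≤ t*q := mul_nonneg h2 hq0
      have e2 : p*t ≤ 0 := mul_nonpos_of_nonpos_of_nonneg hp0.le h2
      have e3 : 0 < (p*t-p*q)^2 := by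
        have : p*t - p*q = p*(t-q) := by ring
        rw [this]
        have : p*(t-q) ≠ 0 := mul_ne_zero hp0.ne (by linarith)
        positivity
      have e4 : (t*q)*(p*t+p*q) ≤ 0 := mul_nonpos_of_nonneg_of_nonpos e1 (by linarith)
      have e5 : 0 ≤ (t*q)^2 := sq_nonneg _
      linarith
    · have e1 : 0 < p*t := mul_pos_of_neg_of_neg hp0 h2
      have e2 : t*q ≤ 0 := mul_nonpos_of_nonpos_of_nonneg h2.le hq0
      -- expression = (pq - tq)^2 + (pt)^2 - 2 pt (pq + tq)
      have e3 : (p*t - p*q)^2 + (t*q)^2 - 2*(t*q)*(p*t+p*q) = (p*q - t*q)^2 + (p*t)^2 - 2*(p*t)*(p*q+t*q) := by ring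
      rw [e3]
      have e4 : (p*t)*(p*q+t*q) ≤ 0 := mul_nonpos_of_nonneg_of_nonpos e1.le (by linarith)
      have e5 : 0 < (p*t)^2 := by positivity
      have e6 : 0 ≤ (p*q - t*q)^2 := sq_nonneg _
      linarith

/-- main arithmetic lemma, ordered positive case -/
lemma no_root_ordered (a b c : ℤ) (ha : 0 < a) (hab : a < b) (hbc : b < c)
    (hreg : a^2+b^2+c^2-2*a*b-2*b*c-2*a*c = 4) (X : ℚ) :
    3*X^4 + 4*((a:ℚ)*b+b*c+c*a)*X^3 + 6*((a:ℚ)*b*c*(a+b+c))*X^2 + 12*((a:ℚ)*b*c)^2*X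
      - 4*((a:ℚ)*b*c)^2 ≠ 0 := by
  intro h
  have hb : 0 < b := ha.trans hab
  have hc0 : 0 < c := hb.trans hbc
  -- c is large
  have hd2 : (c-a-b)^2 = 4*(a*b+1) := by linarith
  have hd0 : 2*a < c - a - b := by
    by_contra hcon
    push Not at hcon
    have h1 : -(2*a) ≤ c-a-b := by linarith
    have h2 : (c-a-b)^2 ≤ (2*a)^2 := sq_le_sq' (by linarith) hcon
    nlinarith
  have hc4 : 4*a < c := by linarith
  have hab_c : a + b ≤ c := by linarith
  -- parity
  obtain ⟨τ, hτ⟩ : ∃ τ, a + b + c = 2*τ := by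
    have h1 : Even ((c-a-b)^2) := by rw [hd2]; exact ⟨2*(a*b+1), by ring⟩
    have h2 : Even (c-a-b) := by
      rcases Int.even_pow.mp h1 with ⟨h3, _⟩; exact h3
    obtain ⟨k, hk⟩ := h2
    exact ⟨a+b+k, by linarith⟩
  set P := a*b*c with hPdef
  have hP : 0 < P := by positivity
  -- clear denominators
  obtain ⟨N, q, hq, hcop, rfl⟩ : ∃ (N : ℤ) (q : ℤ), 0 < q ∧ IsCoprime N q ∧ X = N / q := by
    refine ⟨X.num, X.den, by exact_mod_cast X.den_pos, ?_, (Rat.num_div_den X).symm⟩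
    rw [Int.isCoprime_iff_gcd_eq_one, Int.gcd_def, Int.natAbs_natCast]
    exact X.reduced
  have hqQ : (0:ℚ) < q := by exact_mod_cast hq
  have hZ : 3*N^4 + 4*(a*b+b*c+c*a)*N^3*q + 12*P*τ*N^2*q^2 + 12*P^2*N*q^3 - 4*P^2*q^4 = 0 := by
    have hτQ : (a:ℚ)+b+c = 2*τ := by exact_mod_cast hτ
    have : (3*(N:ℚ)^4 + 4*(a*b+b*c+c*a)*N^3*q + 12*P*τ*N^2*q^2 + 12*P^2*N*q^3 - 4*P^2*q^4) = 0 := by
      have h' := congrArg (fun z => z * (q:ℚ)^4) h
      simp only [zero_mul] at h'
      rw [hτQ] at h'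
      rw [← h']
      field_simp
      rw [hPdef]; push_cast; ring
    exact_mod_cast this
  -- q divides 3
  have hq3 : q ∣ 3 := by
    have h1 : q ∣ 3*N^4 := by
      refine ⟨-(4*(a*b+b*c+c*a)*N^3 + 12*P*τ*N^2*q + 12*P^2*N*q^2 - 4*P^2*q^3), ?_⟩
      linear_combination hZ
    exact (hcop.symm.pow_right (n := 4)).dvd_of_dvd_mul_right h1
  have hq3' : q ≤ 3 := Int.le_of_dvd (by norm_num) hq3
  rcases lt_trichotomy N 0 with hN | hN | hN
  · -- negative root
    obtain ⟨n, hn⟩ : ∃ n : ℤ, n = -N := ⟨_, rfl⟩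
    have hn0 : 0 < n := by linarith
    have hNn : N = -n := by linarith
    subst hNn
    have hcop' : IsCoprime n q := by simpa using hcop.neg_left
    have hZ' : 3*n^4 - 4*(a*b+b*c+c*a)*n^3*q + 12*P*τ*n^2*q^2 - 12*P^2*n*q^3 - 4*P^2*q^4 = 0 := by
      linear_combination hZ
    have hdvd := cube_dvd n P q _ τ hn0 hP hcop' hZ'
    have hle : n^3 ≤ 2*P^2 := Int.le_of_dvd (by positivity) hdvd
    -- n > bc
    have hgt : b*c < n := by
      by_contra hcon
      push Not at hcon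
      have hsb : ((n:ℚ)/q) ≤ b*c := by
        have h1 : (n:ℚ)/q ≤ n := by
          apply div_le_self (by exact_mod_cast hn0.le)
          exact_mod_cast (show (1:ℤ) ≤ q by linarith)
        have h2 : (n:ℚ) ≤ b*c := by exact_mod_cast hcon
        linarith
      have := psi_neg (a:ℚ) b c ((n:ℚ)/q) (by exact_mod_cast ha) (by exact_mod_cast hab)
        (by exact_mod_cast hab_c) (by positivity) hsb (by exact_mod_cast hreg)
      push_cast at h
      have e : 3*((n:ℚ)/q)^4 - 4*((a:ℚ)*b+b*c+c*a)*((n:ℚ)/q)^3 + 6*((a:ℚ)*b*c*(a+b+c))*((n:ℚ)/q)^2 - 12*((a:ℚ)*b*c)^2*((n:ℚ)/q) - 4*((a:ℚ)*b*c)^2 = 0 := by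
        rw [← h]; ring
      linarith
    have h4 : 4*P^2 < n^3 := by
      have h5 : (b*c)^3 < n^3 := by
        apply pow_lt_pow_left₀ hgt (by positivity) (by norm_num)
      have h6 : 4*P^2 ≤ (b*c)^3 := by
        have h7 : 4*a^2 ≤ b*c := by nlinarith
        have h8 : 4*a^2*(b*c)^2 ≤ (b*c)*(b*c)^2 := mul_le_mul_of_nonneg_right h7 (by positivity)
        calc 4*P^2 = 4*a^2*(b*c)^2 := by rw [hPdef]; ring
          _ ≤ (b*c)*(b*c)^2 := h8
          _ = (b*c)^3 := by ring
      linarith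
    have : 0 < P^2 := by positivity
    linarith
  · subst hN
    have : 0 < P^2*q^4 := by positivity
    linarith
  · -- positive root
    have hN1 : 1 ≤ N := hN
    have h1 : 0 < 3*N^4 := by positivity
    have h2 : 0 < 4*(a*b+b*c+c*a)*N^3*q := by positivity
    have hτ0 : 0 < τ := by linarith
    have h3 : 0 < 12*P*τ*N^2*q^2 := by positivity
    have h4 : 12*P^2*N*q^3 < 4*P^2*q^4 := by linarith
    have h5 : (4*P^2*q^3)*(3*N) < (4*P^2*q^3)*q := by linarith
    have h6 : 3*N < q := lt_of_mul_lt_mul_left h5 (by positivity)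
    linarith

/-- general case -/
lemma no_root (a b c : ℤ) (hab : a ≠ b) (hac : a ≠ c) (hbc : b ≠ c) (ha : a ≠ 0) (hb : b ≠ 0)
    (hc : c ≠ 0) (hreg : (c-a-b)^2 = 4*(a*b+1)) (X : ℚ) :
    3*X^4 + 4*((a:ℚ)*b+b*c+c*a)*X^3 + 6*((a:ℚ)*b*c*(a+b+c))*X^2 + 12*((a:ℚ)*b*c)^2*X
      - 4*((a:ℚ)*b*c)^2 ≠ 0 := by
  have hreg' : a^2+b^2+c^2-2*a*b-2*b*c-2*a*c = 4 := by linarith
  -- positive case with all orders
  have pos : ∀ a b c : ℤ, a ≠ b → a ≠ c → b ≠ c → 0 < a → 0 < b → 0 < c →
      a^2+b^2+c^2-2*a*b-2*b*c-2*a*c = 4 →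
      3*X^4 + 4*((a:ℚ)*b+b*c+c*a)*X^3 + 6*((a:ℚ)*b*c*(a+b+c))*X^2 + 12*((a:ℚ)*b*c)^2*X
      - 4*((a:ℚ)*b*c)^2 ≠ 0 := by
    intro a b c hab hac hbc ha hb hc hr
    rcases lt_or_gt_of_ne hab with h1 | h1 <;> rcases lt_or_gt_of_ne hac with h2 | h2 <;>
      rcases lt_or_gt_of_ne hbc with h3 | h3
    · exact no_root_ordered a b c ha h1 h3 hr X
    · have := no_root_ordered a c b ha h2 h3 (by linarith) X
      intro h; apply this; rw [← h]; ring
    · omega
    · have := no_root_ordered c a b hc h2 h1 (by linarith) X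
      intro h; apply this; rw [← h]; ring
    · have := no_root_ordered b a c hb h1 h2 (by linarith) X
      intro h; apply this; rw [← h]; ring
    · omega
    · have := no_root_ordered b c a hb h3 h2 (by linarith) X
      intro h; apply this; rw [← h]; ring
    · have := no_root_ordered c b a hc h3 h1 (by linarith) X
      intro h; apply this; rw [← h]; ring
  -- products of two are positive
  have prod : ∀ a b c : ℤ, a ≠ 0 → b ≠ 0 → c ≠ 0 → (c-a-b)^2 = 4*(a*b+1) → 0 < a*b := by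
    intro a b c ha hb hc hr
    by_contra hcon
    push Not at hcon
    have hne : a*b ≠ 0 := mul_ne_zero ha hb
    have h1 : a*b ≤ -1 := by omega
    have h2 : 0 ≤ (c-a-b)^2 := sq_nonneg _
    have h3 : a*b = -1 := by omega
    have h4 : (c-a-b)^2 = 0 := by rw [hr, h3]; norm_num
    have h5 : c - a - b = 0 := by simpa using h4
    rcases Int.mul_eq_neg_one_iff_eq_one_or_neg_one.mp h3 with ⟨rfl, rfl⟩ | ⟨rfl, rfl⟩
    · apply hc; linarith
    · apply hc; linarith
  have hab' := prod a b c ha hb hc hreg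
  have hac' := prod a c b ha hc hb (by linarith)
  rcases lt_or_gt_of_ne ha with ha0 | ha0
  · have hb0 : b < 0 := by
      by_contra hcon
      push Not at hcon
      nlinarith
    have hc0 : c < 0 := by
      by_contra hcon
      push Not at hcon
      nlinarith
    have := pos (-a) (-b) (-c) (by omega) (by omega) (by omega) (by omega) (by omega) (by omega)
      (by linarith)
    intro h; apply this; rw [← h]; push_cast; ring
  · have hb0 : 0 < b := by
      by_contra hcon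
      push Not at hcon
      nlinarith
    have hc0 : 0 < c := by
      by_contra hcon
      push Not at hcon
      nlinarith
    exact pos a b c hab hac hbc ha0 hb0 hc0 hreg'

/-- 3-torsion points have x-coordinate a root of the 3-division polynomial (for a₁ = a₃ = 0). -/
lemma three_torsion {F : Type*} [Field F] [DecidableEq F] (W : WeierstrassCurve.Affine F)
    (h1 : W.a₁ = 0) (h3 : W.a₃ = 0) {x y : F} (h : W.Nonsingular x y)
    (hP : 3 • (Affine.Point.some x y h) = 0) :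
    3*x^4 + 4*W.a₂*x^3 + 6*W.a₄*x^2 + 12*W.a₆*x + (4*W.a₂*W.a₆ - W.a₄^2) = 0 := by
  have e1 : Affine.Point.some x y h + Affine.Point.some x y h = - Affine.Point.some x y h := by
    have : (3:ℕ) • (Affine.Point.some x y h) =
      Affine.Point.some x y h + Affine.Point.some x y h + Affine.Point.some x y h := by
      rw [show (3:ℕ) = 2 + 1 from rfl, add_smul, two_smul, one_smul]
    rw [this] at hP
    exact eq_neg_of_add_eq_zero_left hP
  by_cases hy : y = W.negY x y
  · exfalso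
    rw [Affine.Point.add_self_of_Y_eq hy] at e1
    exact Affine.Point.some_ne_zero _ (neg_eq_zero.mp e1.symm)
  · rw [Affine.Point.add_self_of_Y_ne hy, Affine.Point.neg_some, Affine.Point.some.injEq] at e1
    obtain ⟨ex, _⟩ := e1
    rw [Affine.slope_of_Y_ne rfl hy] at ex
    simp only [Affine.addX, Affine.negY, h1, h3] at ex hy
    have hyne : 2*y ≠ 0 := by
      intro h0; apply hy; linear_combination h0
    have heq := (Affine.equation_iff x y).mp h.1
    simp only [h1, h3] at heq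
    have e2 : (3*x^2 + 2*W.a₂*x + W.a₄)^2 = (3*x + W.a₂) * (2*y)^2 := by
      have hd : y - (-y - 0 * x - 0) = 2*y := by ring
      have hn : 3 * x ^ 2 + 2 * W.a₂ * x + W.a₄ - 0 * y = 3*x^2 + 2*W.a₂*x + W.a₄ := by ring
      rw [hd, hn] at ex
      have hL : ((3*x^2 + 2*W.a₂*x + W.a₄) / (2*y)) * (2*y) = 3*x^2 + 2*W.a₂*x + W.a₄ :=
        div_mul_cancel₀ _ hyne
      generalize (3*x^2 + 2*W.a₂*x + W.a₄) / (2*y) = L at ex hL
      rw [← hL]
      linear_combination (2*y)^2 * ex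
    have heq' : y^2 = x^3 + W.a₂*x^2 + W.a₄*x + W.a₆ := by linear_combination heq
    linear_combination (-1:F) * e2 - 4*(3*x + W.a₂) * heq'

/-- If no rational x is a root of the 3-division polynomial then no 3-torsion over quadratic. -/
lemma no_three_torsion {K : Type*} [Field K] [NumberField K] [DecidableEq K]
    (hK : Module.finrank ℚ K = 2) (W : WeierstrassCurve ℚ) (h1 : W.a₁ = 0) (h3 : W.a₃ = 0)
    (hψ : ∀ x : ℚ, 3*x^4 + 4*W.a₂*x^3 + 6*W.a₄*x^2 + 12*W.a₆*x + (4*W.a₂*W.a₆ - W.a₄^2) ≠ 0)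
    (P : (W.baseChange K).toAffine.Point) (hP : 3 • P = 0) : P = 0 := by
  have : Algebra.IsQuadraticExtension ℚ K := ⟨hK⟩
  have : IsGalois ℚ K := inferInstance
  have hcard : Nat.card Gal(K/ℚ) = 2 := by rw [IsGalois.card_aut_eq_finrank, hK]
  -- points with rational x-coordinate
  have key : ∀ (x y : K) (h : (W.baseChange K).toAffine.Nonsingular x y),
      3 • (Affine.Point.some x y h) = 0 → x ∉ Set.range (algebraMap ℚ K) := by
    rintro x y h hP ⟨x0, rfl⟩
    have := three_torsion _ (by simp [baseChange, h1]) (by simp [baseChange, h3]) h hP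
    apply hψ x0
    apply (algebraMap ℚ K).injective
    simpa [baseChange] using this
  have fixed : ∀ x : K, (∀ σ : Gal(K/ℚ), σ x = x) → x ∈ Set.range (algebraMap ℚ K) := by
    intro x hx
    exact (IsGalois.mem_range_algebraMap_iff_fixed x).mpr hx
  -- nontrivial automorphism
  obtain ⟨σ, hσ⟩ : ∃ σ : Gal(K/ℚ), σ ≠ 1 := by
    have : Nontrivial Gal(K/ℚ) := by
      by_contra hnt
      rw [not_nontrivial_iff_subsingleton] at hnt
      have := Nat.card_of_subsingleton (1 : Gal(K/ℚ))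
      omega
    exact exists_ne 1
  have hall : ∀ τ : Gal(K/ℚ), τ = 1 ∨ τ = σ := by
    classical
    intro τ
    by_contra hcon
    push Not at hcon
    have : Finite Gal(K/ℚ) := Nat.finite_of_card_ne_zero (by omega)
    have := Fintype.ofFinite Gal(K/ℚ)
    have h3 : ({1, σ, τ} : Finset Gal(K/ℚ)).card = 3 := by
      rw [Finset.card_eq_three]
      exact ⟨1, σ, τ, hσ.symm, hcon.1.symm, hcon.2.symm, rfl⟩
    have h4 := Finset.card_le_univ ({1, σ, τ} : Finset Gal(K/ℚ))
    rw [← Nat.card_eq_fintype_card] at h4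
    omega
  have hσσ : ∀ x, σ (σ x) = x := by
    intro x
    rcases hall (σ * σ) with h | h
    · have := congrArg (fun f : Gal(K/ℚ) => f x) h
      simpa using this
    · exfalso; apply hσ
      exact mul_eq_left.mp h
  have fixed' : ∀ x : K, σ x = x → x ∈ Set.range (algebraMap ℚ K) := by
    intro x hx
    apply fixed
    intro τ
    rcases hall τ with rfl | rfl
    · rfl
    · exact hx
  -- conjugation on points
  let φ := Affine.Point.map (W' := W) (σ : K →ₐ[ℚ] K)
  have hφφ : ∀ Q, φ (φ Q) = Q := by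
    intro Q
    rcases Q with _ | ⟨x, y, h⟩
    · rfl
    · simp only [φ, Affine.Point.map_some, Affine.Point.some.injEq]
      exact ⟨hσσ x, hσσ y⟩
  have hsum : P + φ P = 0 := by
    by_contra hne
    have h3Q : 3 • (P + φ P) = 0 := by
      rw [smul_add, ← map_nsmul, hP, map_zero, add_zero]
    have hfix : φ (P + φ P) = P + φ P := by rw [map_add, hφφ, add_comm]
    rcases hQ : P + φ P with _ | ⟨x, y, h⟩
    · exact hne hQ
    · rw [hQ] at h3Q hfix
      apply key x y h h3Q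
      apply fixed'
      have := hfix
      simp only [φ, Affine.Point.map_some, Affine.Point.some.injEq] at this
      exact this.1
  rcases P with _ | ⟨x, y, h⟩
  · rfl
  · exfalso
    apply key x y h hP
    apply fixed'
    have h4 : φ (Affine.Point.some x y h) = - Affine.Point.some x y h := by
      rw [eq_neg_iff_add_eq_zero, add_comm]; exact hsum
    simp only [φ, Affine.Point.map_some, Affine.Point.neg_some, Affine.Point.some.injEq] at h4
    exact h4.1

/-- **Main theorem** (negative answer to Q1).  For every regular Diophantine triple `{a, b, c}` in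
integers and every quadratic field `K`, the torsion subgroup of `E(K)`, `E` the induced curve, is
not isomorphic to `ℤ/2 × ℤ/6`. -/
theorem result (a b c : ℤ) (htriple : IsDiophantineTriple a b c) (hreg : IsRegular a b c)
    (K : Type*) [Field K] [NumberField K] [DecidableEq K] (hK : Module.finrank ℚ K = 2) :
    IsEmpty (AddCommGroup.torsion ((inducedCurve a b c).baseChange K).toAffine.Point ≃+
      ZMod 2 × ZMod 6) := by
  refine ⟨fun f => ?_⟩
  obtain ⟨⟨hab, hac, hbc⟩, ⟨ha, hb, hc⟩, -, -, -⟩ := htriple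
  have hreg' : (c - a - b) ^ 2 = 4 * (a * b + 1) := hreg
  have hψ : ∀ x : ℚ, 3*x^4 + 4*(inducedCurve a b c).a₂*x^3 + 6*(inducedCurve a b c).a₄*x^2
      + 12*(inducedCurve a b c).a₆*x
      + (4*(inducedCurve a b c).a₂*(inducedCurve a b c).a₆ - (inducedCurve a b c).a₄^2) ≠ 0 := by
    intro x h
    apply no_root a b c hab hac hbc ha hb hc hreg' x
    rw [← h]
    simp only [inducedCurve]
    have hq : ((c:ℚ) - a - b)^2 = 4*(a*b+1) := by exact_mod_cast hreg'
    linear_combination (((a:ℚ)*b*c)^2) * hq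
  -- an element of order three
  let P := f.symm (0, 2)
  have hP3 : 3 • P = 0 := by
    rw [← map_nsmul]
    have : (3:ℕ) • ((0, 2) : ZMod 2 × ZMod 6) = 0 := by decide
    rw [this, map_zero]
  have hP3' : 3 • (P : ((inducedCurve a b c).baseChange K).toAffine.Point) = 0 := by
    exact_mod_cast congrArg Subtype.val hP3
  have hP0 := no_three_torsion hK (inducedCurve a b c) rfl rfl hψ _ hP3'
  have hP0' : P = 0 := Subtype.ext hP0
  have h2 : f P = (0, 2) := f.apply_symm_apply _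
  rw [hP0', map_zero] at h2
  exact absurd h2 (by decide)

end Pool.Agent.Results.MP_618be3_nt.NoTorsionTwoSix
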